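import Mathlib
import Pool.Agent.H554R2.Sem.Defs

/-!
# The hard function has small Boolean circuits
-/

set_option autoImplicit false

open Finset

namespace Pool.Agent.H554R2.Sem

/-- The Boolean function `f` of the variables `V` is available when the functions in the list `l`
have been computed: it is one of them, or it is an input variable. -/
def Avail {V : Type} (l : List ((V → Bool) → Bool)) (f : (V → Bool) → Bool) : Prop :=
  f ∈ l ∨ ∃ v, f = fun w => w v

/-- `l` is the list of the functions computed by the gates of a Boolean circuit over the basis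
`{1, AND, XOR}` with the input variables `V` (the head of the list is the last gate). -/
inductive Circ {V : Type} : List ((V → Bool) → Bool) → Prop
  | nil : Circ []
  | one {l : List ((V → Bool) → Bool)} : Circ l → Circ ((fun _ => true) :: l)
  | and {l : List ((V → Bool) → Bool)} {f g : (V → Bool) → Bool} :
      Circ l → Avail l f → Avail l g → Circ ((fun w => f w && g w) :: l)
  | xor {l : List ((V → Bool) → Bool)} {f g : (V → Bool) → Bool} :
      Circ l → Avail l f → Avail l g → Circ ((fun w => Bool.xor (f w) (g w)) :: l)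

/-- The function `f` is computed by a Boolean circuit with at most `s` gates (over the basis
`{1, AND, XOR}`). -/
def HasCircuit {V : Type} (s : ℕ) (f : (V → Bool) → Bool) : Prop :=
  ∃ l : List ((V → Bool) → Bool), Circ l ∧ l.length ≤ s ∧ Avail l f

namespace CircAux

variable {V : Type}

/-- Boolean functions -/
abbrev Fn (V : Type) : Type := (V → Bool) → Bool

theorem avail_mono {l : List (Fn V)} {f : Fn V} (l' : List (Fn V)) (h : Avail l f) :
    Avail (l' ++ l) f := by
  rcases h with h | h
  · exact Or.inl (List.mem_append_right _ h)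
  · exact Or.inr h

/-- from the functions in `A` one gets those in `B` by `s` gates -/
def Can (A : Set (Fn V)) (s : ℕ) (B : Set (Fn V)) : Prop :=
  ∀ l, Circ l → (∀ f ∈ A, Avail l f) →
    ∃ l', Circ (l' ++ l) ∧ l'.length ≤ s ∧ ∀ f ∈ B, Avail (l' ++ l) f

theorem Can.mono {A A' B B' : Set (Fn V)} {s s' : ℕ} (h : Can A s B) (hA : A ⊆ A') (hs : s ≤ s')
    (hB : B' ⊆ B) : Can A' s' B' := by
  intro l hl hA'
  obtain ⟨l', h1, h2, h3⟩ := h l hl (fun f hf => hA' f (hA hf))
  exact ⟨l', h1, h2.trans hs, fun f hf => h3 f (hB hf)⟩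

theorem Can.trans {A B C : Set (Fn V)} {s s' : ℕ} (h : Can A s B) (h' : Can (A ∪ B) s' C) :
    Can A (s + s') (B ∪ C) := by
  intro l hl hA
  obtain ⟨l1, h1, h2, h3⟩ := h l hl hA
  obtain ⟨l2, h4, h5, h6⟩ := h' (l1 ++ l) h1 (by
    rintro f (hf | hf)
    · exact avail_mono l1 (hA f hf)
    · exact h3 f hf)
  refine ⟨l2 ++ l1, ?_, ?_, ?_⟩
  · rw [List.append_assoc]
    exact h4
  · rw [List.length_append]
    omega
  · rw [List.append_assoc]
    rintro f (hf | hf)
    · exact avail_mono l2 (h3 f hf)
    · exact h6 f hf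

theorem Can.then {A B C : Set (Fn V)} {s s' : ℕ} (h : Can A s B) (h' : Can (A ∪ B) s' C) :
    Can A (s + s') C :=
  (h.trans h').mono subset_rfl le_rfl Set.subset_union_right

theorem can_var (A : Set (Fn V)) (v : V) : Can A 0 {fun w => w v} := by
  intro l hl _
  refine ⟨[], hl, le_rfl, ?_⟩
  rintro f rfl
  exact Or.inr ⟨v, rfl⟩

theorem can_self (A : Set (Fn V)) : Can A 0 A := by
  intro l hl hA
  exact ⟨[], hl, le_rfl, hA⟩

theorem can_one (A : Set (Fn V)) : Can A 1 {fun _ => true} := by
  intro l hl _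
  refine ⟨[fun _ => true], Circ.one hl, le_rfl, ?_⟩
  rintro f rfl
  exact Or.inl List.mem_cons_self

theorem can_and (A : Set (Fn V)) (f g : Fn V) (hf : f ∈ A) (hg : g ∈ A) :
    Can A 1 {fun w => f w && g w} := by
  intro l hl hA
  refine ⟨[fun w => f w && g w], Circ.and hl (hA f hf) (hA g hg), le_rfl, ?_⟩
  rintro h rfl
  exact Or.inl List.mem_cons_self

theorem can_xor (A : Set (Fn V)) (f g : Fn V) (hf : f ∈ A) (hg : g ∈ A) :
    Can A 1 {fun w => Bool.xor (f w) (g w)} := by
  intro l hl hA
  refine ⟨[fun w => Bool.xor (f w) (g w)], Circ.xor hl (hA f hf) (hA g hg), le_rfl, ?_⟩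
  rintro h rfl
  exact Or.inl List.mem_cons_self

theorem can_zero (A : Set (Fn V)) : Can A 2 {fun _ => false} :=
  (can_one A).then (can_xor _ (fun _ => true) (fun _ => true) (Or.inr rfl) (Or.inr rfl))

theorem can_list {ι : Type} (A : Set (Fn V)) (B : ι → Set (Fn V)) (c : ℕ) (L : List ι)
    (h : ∀ i ∈ L, Can A c (B i)) : Can A (L.length * c) {f | ∃ i ∈ L, f ∈ B i} := by
  induction L with
  | nil =>
    intro l hl _
    exact ⟨[], hl, by simp, by rintro f ⟨i, hi, -⟩; simp at hi⟩
  | cons i L ih =>
    have h1 := ih (fun j hj => h j (List.mem_cons_of_mem _ hj))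
    have h2 := (h i List.mem_cons_self).mono (Set.subset_union_left (t := {f | ∃ i ∈ L, f ∈ B i}))
      le_rfl subset_rfl
    refine (h1.trans h2).mono subset_rfl ?_ ?_
    · rw [List.length_cons]
      exact le_of_eq (by ring)
    · rintro f ⟨j, hj, hf⟩
      rcases List.mem_cons.mp hj with rfl | hj
      · exact Or.inr hf
      · exact Or.inl ⟨j, hj, hf⟩

theorem can_range {n : ℕ} (A : Set (Fn V)) (c : ℕ) (X : Fin n → Fn V)
    (h : ∀ i, Can A c {X i}) : Can A (n * c) (Set.range X) := by
  have h1 := can_list A (fun i => {X i}) c (List.finRange n) (fun i _ => h i)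
  rw [List.length_finRange] at h1
  refine h1.mono subset_rfl le_rfl ?_
  rintro f ⟨i, rfl⟩
  exact ⟨i, List.mem_finRange i, rfl⟩

/-- the sum modulo 2 -/
def xs (L : List Bool) : Bool := L.foldr Bool.xor false

theorem can_xs (A : Set (Fn V)) (L : List (Fn V)) (hL : ∀ f ∈ L, f ∈ A) :
    Can A (L.length + 2) {fun w => xs (L.map (fun f => f w))} := by
  induction L with
  | nil => exact can_zero A
  | cons f L ih =>
    have h1 := ih (fun g hg => hL g (List.mem_cons_of_mem _ hg))
    have h2 := can_xor (A ∪ {fun w : V → Bool => xs (L.map (fun f : Fn V => f w))}) f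
      (fun w : V → Bool => xs (L.map (fun f : Fn V => f w))) (Or.inl (hL f List.mem_cons_self))
      (Or.inr rfl)
    refine (h1.then h2).mono subset_rfl ?_ subset_rfl
    rw [List.length_cons]

/-- `Bool = ZMod 2` -/
def bz : Bool ≃ ZMod 2 where
  toFun b := if b then 1 else 0
  invFun z := decide (z = 1)
  left_inv := by decide
  right_inv := by decide

theorem bz_xor (a b : Bool) : bz (Bool.xor a b) = bz a + bz b := by
  revert a b; decide

theorem bz_and (a b : Bool) : bz (a && b) = bz a * bz b := by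
  revert a b; decide

theorem bz_xs (L : List Bool) : bz (xs L) = (L.map bz).sum := by
  induction L with
  | nil => rfl
  | cons a L ih =>
    rw [List.map_cons, List.sum_cons, ← ih, ← bz_xor]
    rfl

section field

variable {n : ℕ} (β : Module.Basis (Fin n) (ZMod 2) (GaloisField 2 n))

/-- the coding of the elements of the field -/
noncomputable def ee : Pt n ≃ GaloisField 2 n :=
  (Equiv.arrowCongr (Equiv.refl (Fin n)) bz).trans β.equivFun.symm.toEquiv

theorem ee_apply (x : Pt n) : ee β x = ∑ i, bz (x i) • β i := by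
  show β.equivFun.symm (fun i => bz (x i)) = _
  rw [Module.Basis.equivFun_symm_apply]

theorem repr_ee (x : Pt n) (i : Fin n) : β.repr (ee β x) i = bz (x i) := by
  have : β.equivFun (ee β x) = fun i => bz (x i) := by
    show β.equivFun (β.equivFun.symm (fun i => bz (x i))) = _
    exact LinearEquiv.apply_symm_apply _ _
  exact congrFun this i

theorem ee_eq_of_repr (x : Pt n) (y : GaloisField 2 n) (h : ∀ i, β.repr y i = bz (x i)) :
    ee β x = y := by
  apply β.repr.injective
  ext i
  rw [repr_ee, h]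

/-- sum of vectors of functions -/
def vadd (X Y : Fin n → Fn V) : Fin n → Fn V := fun i w => Bool.xor (X i w) (Y i w)

theorem ee_vadd (X Y : Fin n → Fn V) (w : V → Bool) :
    ee β (fun i => vadd X Y i w) = ee β (fun i => X i w) + ee β (fun i => Y i w) := by
  apply ee_eq_of_repr
  intro i
  rw [map_add, Finsupp.add_apply, repr_ee, repr_ee]
  exact (bz_xor _ _).symm

/-- the structure constants -/
noncomputable def prsL (c : Fin n) : List (Fin n × Fin n) :=
  (Finset.univ.filter (fun p : Fin n × Fin n => β.repr (β p.1 * β p.2) c = 1)).toList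

/-- product of vectors of functions -/
noncomputable def vmul (X Y : Fin n → Fn V) : Fin n → Fn V := fun c w =>
  xs ((prsL β c).map (fun p => X p.1 w && Y p.2 w))

theorem ee_vmul (X Y : Fin n → Fn V) (w : V → Bool) :
    ee β (fun i => vmul β X Y i w) = ee β (fun i => X i w) * ee β (fun i => Y i w) := by
  apply ee_eq_of_repr
  intro c
  rw [vmul, bz_xs, List.map_map, ee_apply, ee_apply, Finset.sum_mul_sum]
  have h1 : ∀ z : ZMod 2, z = 0 ∨ z = 1 := by decide
  have h2 : ((prsL β c).map (bz ∘ fun p => X p.1 w && Y p.2 w)).sum =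
      ∑ p ∈ Finset.univ.filter (fun p : Fin n × Fin n => β.repr (β p.1 * β p.2) c = 1),
        bz (X p.1 w) * bz (Y p.2 w) := by
    unfold prsL
    rw [Finset.sum_map_toList]
    apply Finset.sum_congr rfl
    intro p _
    exact bz_and _ _
  rw [h2, Finset.sum_filter, ← Finset.sum_product']
  have h3 : β.repr (∑ p ∈ (Finset.univ : Finset (Fin n)) ×ˢ (Finset.univ : Finset (Fin n)),
      (bz (X p.1 w) • β p.1) * (bz (Y p.2 w) • β p.2)) c =
      ∑ p ∈ (Finset.univ : Finset (Fin n)) ×ˢ (Finset.univ : Finset (Fin n)),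
        β.repr ((bz (X p.1 w) • β p.1) * (bz (Y p.2 w) • β p.2)) c := by
    rw [map_sum, Finsupp.finsetSum_apply]
  rw [h3, Finset.univ_product_univ]
  apply Finset.sum_congr rfl
  intro p _
  rw [smul_mul_smul_comm, map_smul, Finsupp.smul_apply, smul_eq_mul]
  rcases h1 (β.repr (β p.1 * β p.2) c) with h | h
  · rw [h, if_neg (by decide), mul_zero]
  · rw [h, if_pos rfl, mul_one]

theorem length_prsL (c : Fin n) : (prsL β c).length ≤ n ^ 2 := by
  unfold prsL
  rw [Finset.length_toList]
  refine (Finset.card_filter_le _ _).trans ?_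
  rw [Finset.card_univ, Fintype.card_prod, Fintype.card_fin, sq]

theorem can_vadd (A : Set (Fn V)) (X Y : Fin n → Fn V) (hX : Set.range X ⊆ A)
    (hY : Set.range Y ⊆ A) : Can A n (Set.range (vadd X Y)) := by
  have h := can_range A 1 (vadd X Y) (fun i => can_xor A (X i) (Y i) (hX ⟨i, rfl⟩) (hY ⟨i, rfl⟩))
  exact h.mono subset_rfl (by omega) subset_rfl

theorem can_vmul (A : Set (Fn V)) (X Y : Fin n → Fn V) (hX : Set.range X ⊆ A)
    (hY : Set.range Y ⊆ A) : Can A (n ^ 2 + n * (n ^ 2 + 2)) (Set.range (vmul β X Y)) := by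
  have h1 := can_list A (fun p : Fin n × Fin n => {fun w => X p.1 w && Y p.2 w}) 1
    (Finset.univ : Finset (Fin n × Fin n)).toList
    (fun p _ => can_and A (X p.1) (Y p.2) (hX ⟨_, rfl⟩) (hY ⟨_, rfl⟩))
  rw [Finset.length_toList, Finset.card_univ, Fintype.card_prod, Fintype.card_fin] at h1
  set B : Set (Fn V) := {f | ∃ p ∈ (Finset.univ : Finset (Fin n × Fin n)).toList,
    f ∈ ({fun w => X p.1 w && Y p.2 w} : Set (Fn V))} with hB
  have h2 := can_range (A ∪ B) (n ^ 2 + 2) (vmul β X Y) (fun c => by
    have h3 := can_xs (A ∪ B) ((prsL β c).map (fun p => fun w => X p.1 w && Y p.2 w)) (by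
      intro f hf
      obtain ⟨p, -, rfl⟩ := List.mem_map.mp hf
      exact Or.inr ⟨p, Finset.mem_toList.mpr (Finset.mem_univ _), rfl⟩)
    refine h3.mono subset_rfl ?_ ?_
    · rw [List.length_map]
      have := length_prsL β c
      omega
    · rintro f rfl
      show vmul β X Y c = _
      funext w
      rw [List.map_map]
      rfl)
  refine (h1.then h2).mono subset_rfl ?_ subset_rfl
  exact le_of_eq (by ring)

/-- Horner's rule -/
noncomputable def hor (X : Fin n → Fn V) : (k : ℕ) → (Fin k → Fin n → Fn V) → Fin n → Fn V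
  | 0, _ => fun _ _ => false
  | k + 1, a => vadd (a 0) (vmul β X (hor X k (fun j => a j.succ)))

theorem ee_hor (X : Fin n → Fn V) (k : ℕ) : ∀ (a : Fin k → Fin n → Fn V) (w : V → Bool),
    ee β (fun i => hor β X k a i w) =
      ∑ j : Fin k, ee β (fun i => a j i w) * ee β (fun i => X i w) ^ (j : ℕ) := by
  induction k with
  | zero =>
    intro a w
    rw [Finset.univ_eq_empty, Finset.sum_empty]
    apply ee_eq_of_repr
    intro i
    rw [map_zero]
    rfl
  | succ k ih =>
    intro a w
    rw [Fin.sum_univ_succ]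
    show ee β (fun i => vadd (a 0) (vmul β X (hor β X k (fun j => a j.succ))) i w) = _
    rw [ee_vadd, ee_vmul, ih, Fin.val_zero, pow_zero, mul_one, Finset.mul_sum]
    congr 1
    apply Finset.sum_congr rfl
    intro j _
    rw [Fin.val_succ, pow_succ]
    ring

theorem can_hor (A : Set (Fn V)) (X : Fin n → Fn V) (hX : Set.range X ⊆ A) (k : ℕ) :
    ∀ (a : Fin k → Fin n → Fn V), (∀ j, Set.range (a j) ⊆ A) →
    Can A (2 + k * (n ^ 2 + n * (n ^ 2 + 2) + n)) (Set.range (hor β X k a)) := by
  induction k with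
  | zero =>
    intro a _
    refine (can_zero A).mono subset_rfl (by omega) ?_
    rintro f ⟨i, rfl⟩
    rfl
  | succ k ih =>
    intro a ha
    have h1 := ih (fun j => a j.succ) (fun j => ha j.succ)
    set H := hor β X k (fun j => a j.succ) with hH
    have h2 := can_vmul β (A ∪ Set.range H) X H (hX.trans Set.subset_union_left)
      Set.subset_union_right
    have h3 := can_vadd ((A ∪ Set.range H) ∪ Set.range (vmul β X H)) (a 0) (vmul β X H)
      (((ha 0).trans Set.subset_union_left).trans Set.subset_union_left)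
      Set.subset_union_right
    have h4 := h1.then (h2.then h3)
    refine h4.mono subset_rfl ?_ ?_
    · exact le_of_eq (by ring)
    · rintro f ⟨i, rfl⟩
      exact ⟨i, rfl⟩

end field

theorem ofFn_parity {n : ℕ} (x : Pt n) : Bool.xor true (xs (List.ofFn x)) = true ↔
    Even (Finset.univ.filter (fun i : Fin n => x i = true)).card := by
  have h1 : bz (xs (List.ofFn x)) =
      (((Finset.univ.filter (fun i : Fin n => x i = true)).card : ℕ) : ZMod 2) := by
    rw [bz_xs, List.map_ofFn, List.sum_ofFn, Finset.card_filter, Nat.cast_sum]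
    apply Finset.sum_congr rfl
    intro i _
    show bz (x i) = _
    cases x i <;> simp [bz]
  rw [← ZMod.natCast_eq_zero_iff_even, ← h1]
  cases xs (List.ofFn x) <;> simp [bz]

end CircAux

open CircAux

open Classical in
/-- TASK K-U. The hard function (with `9 n ^ 2` coefficients) is computed by Boolean circuits of
polynomial size. -/
theorem hard_circuit (n : ℕ) (hn : 0 < n) : ∃ e : Pt n ≃ GaloisField 2 n, ∀ i0 : Fin n,
    HasCircuit (100 * n ^ 5) (fun w : (Fin (9 * n ^ 2) × Fin n) ⊕ Fin n → Bool =>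
      decide (Hard e i0 w)) := by
  obtain ⟨β⟩ : Nonempty (Module.Basis (Fin n) (ZMod 2) (GaloisField 2 n)) :=
    ⟨Module.finBasisOfFinrankEq (ZMod 2) (GaloisField 2 n) (GaloisField.finrank 2 hn.ne')⟩
  refine ⟨ee β, fun i0 => ?_⟩
  set V : Type := (Fin (9 * n ^ 2) × Fin n) ⊕ Fin n with hV
  set X : Fin n → Fn V := fun i w => w (Sum.inr i) with hX
  set a : Fin (9 * n ^ 2) → Fin n → Fn V := fun j i w => w (Sum.inl (j, i)) with ha
  set A : Set (Fn V) := {f | ∃ v, f = fun w => w v} with hA
  have hXA : Set.range X ⊆ A := by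
    rintro f ⟨i, rfl⟩
    exact ⟨Sum.inr i, rfl⟩
  have haA : ∀ j, Set.range (a j) ⊆ A := by
    rintro j f ⟨i, rfl⟩
    exact ⟨Sum.inl (j, i), rfl⟩
  have h1 := can_hor β A X hXA (9 * n ^ 2) a haA
  set Z := hor β X (9 * n ^ 2) a with hZ
  have h2 := can_xs (A ∪ Set.range Z) (List.ofFn X) (by
    intro f hf
    rw [List.mem_ofFn] at hf
    exact Or.inl (hXA hf))
  set par : Fn V := fun w => xs ((List.ofFn X).map (fun f => f w)) with hpar
  have h3 := can_one ((A ∪ Set.range Z) ∪ {par})
  have h4 := can_xor (((A ∪ Set.range Z) ∪ {par}) ∪ {fun _ => true}) (fun _ => true) par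
    (Or.inr rfl) (Or.inl (Or.inr rfl))
  have h5 := can_and ((((A ∪ Set.range Z) ∪ {par}) ∪ {fun _ => true}) ∪
    {fun w => Bool.xor true (par w)}) (fun w => Bool.xor true (par w)) (Z i0)
    (Or.inr rfl) (Or.inl (Or.inl (Or.inl (Or.inr ⟨i0, rfl⟩))))
  have h6 := h1.then (h2.then (h3.then (h4.then h5)))
  obtain ⟨l, e1, e2, e3⟩ := h6 [] Circ.nil (fun f hf => Or.inr hf)
  rw [List.append_nil] at e1 e3
  refine ⟨l, e1, e2.trans ?_, ?_⟩
  · rw [List.length_ofFn]
    have f1 : n ≤ n ^ 5 := Nat.le_self_pow (by norm_num) n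
    have f3 : n ^ 3 ≤ n ^ 5 := Nat.pow_le_pow_right hn (by norm_num)
    have f4 : n ^ 4 ≤ n ^ 5 := Nat.pow_le_pow_right hn (by norm_num)
    have f0 : 1 ≤ n ^ 5 := Nat.one_le_pow _ _ hn
    have e : 9 * n ^ 2 * (n ^ 2 + n * (n ^ 2 + 2) + n) = 9 * n ^ 4 + 9 * n ^ 5 + 27 * n ^ 3 := by
      ring
    rw [e]
    omega
  · have h7 := e3 _ rfl
    have h8 : (fun w : V → Bool => decide (Hard (ee β) i0 w)) =
        fun w => (Bool.xor true (par w)) && (Z i0 w) := by
      funext w
      rw [Bool.eq_iff_iff, decide_eq_true_iff, Bool.and_eq_true]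
      have hp : par w = xs (List.ofFn (fun i => w (Sum.inr i))) := by
        rw [hpar]
        simp only
        rw [List.map_ofFn]
        rfl
      rw [hp, ofFn_parity]
      have hz : (fun i => Z i w) = (ee β).symm
          (∑ j : Fin (9 * n ^ 2), ee β (fun b => w (Sum.inl (j, b))) *
            ee β (fun b => w (Sum.inr b)) ^ (j : ℕ)) := by
        rw [Equiv.eq_symm_apply]
        exact ee_hor β X (9 * n ^ 2) a w
      have hz0 : Z i0 w = _ := congrFun hz i0
      rw [hz0]
      rfl
    rw [h8]
    exact h7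

end Pool.Agent.H554R2.Sem
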